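import Pool.Agent.K1H25.HF.Fin

/-!
# MP_da1489_an — the quantum ball algebra `O_q(B^n_r)` at `|q| = 1` is holomorphically finitely generated

`K1H25.HF.WAlg D` is the algebra of functions `c` on a monoid which are absolutely summable against every
weight `D.wt i`, with twisted convolution `(ab)(g) = ∑_{x+y=g} β(x,y) a(x) b(y)` and the topology of the norms
`∑ |c(g)| wt_i(g)`.

* `K1H25.HF.FreeF N` is `F(C^N)`: words in `N` letters, `β = 1`, weights `R^{|w|}`, `R > 0`.
* `K1H25.HF.QBall n q hq r` is `O_q(B^n_r)` for `|q| = 1`: multi-indices `k : Fin n → ℕ`,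
  `x^k x^l = q^{-∑_{i<j} l_i k_j} x^{k+l}` (so `x_i x_j = q x_j x_i` for `i < j`, `K1H25.HF.comm_rel`), weights
  `(k!/|k|!)^{1/2} ρ^{|k|}`, `0 < ρ < r`.
* `K1H25.HF.HFG A`: for some `N` and some closed two-sided ideal `J` of `F(C^N)`, the algebra `A` is
  isomorphic, as an algebra and topologically, to `F(C^N)/J` with the quotient topology.

The theorem: for every `n ≥ 1`, every `q` with `|q| = 1` and every `0 < r < ∞` the algebra `O_q(B^n_r)` is HFG.
-/

namespace Pool.Agent.Results.MP_da1489_an.QuantumBallHFG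

open K1H25.HF

theorem result (n : ℕ) (hn : 1 ≤ n) (q : ℂ) (hq : ‖q‖ = 1) (r : ℝ) (hr : 0 < r) :
    HFG (QBall n q hq r) :=
  main n hn q hq r hr

end Pool.Agent.Results.MP_da1489_an.QuantumBallHFG
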